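import Pool.Agent.H992.SF.GDefs

/-!
# Near invariance in a random frame, several functions (SG/LINV2)
-/

set_option autoImplicit false
open MeasureTheory Filter Topology Complex
open scoped ContDiff

namespace Pool.Agent.H189.SG

open Pool.Agent.W745.RW (TF)
open Pool.Agent.Y265.RW (int_mul)
open Pool.Agent.N661.BH (HP mv)
open Pool.Agent.N814.BHM
open Pool.Agent.N814.BHASM
open Pool.Agent.N40.BRSTATH
open Pool.Agent.H992.LB (eX SX pt sum_pt eX_ex eX_norm eX_meas mapDomain_sum fst_le split_bd)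
open Pool.Agent.H992.SF

variable {d : ℕ} {Ω : Set ℂ} {lam : Fin d → ℕ → ℝ} {u : Fin d → ℕ → ℂ → ℝ}

theorem tf_cmul {Ω : Set ℂ} {χ : ℂ → ℝ} (h : TF Ω χ) (C : ℝ) : TF Ω (fun z => C * χ z) :=
  ⟨contDiff_const.mul h.1, h.2.1.mul_left, (tsupport_mul_subset_right).trans h.2.2⟩

theorem tf_add {Ω : Set ℂ} {φ χ : ℂ → ℝ} (h : TF Ω φ) (h' : TF Ω χ) :
    TF Ω (fun z => φ z + χ z) :=
  ⟨h.1.add h'.1, h.2.1.add h'.2.1, (tsupport_add φ χ).trans (Set.union_subset h.2.2 h'.2.2)⟩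

/-- near invariance in a fixed frame, all test functions -/
theorem claim_gen (hc : S_CLAIM2) (H : ∀ i, Hyp Ω (lam i) (u i)) (i₀ : Fin d)
    (S : Finset (Fin d)) (c : Fin d → ℝ)
    (hS : ∀ i ∈ S, Tendsto (fun n => √(lam i n / lam i₀ n)) atTop (𝓝 (c i)))
    {ψ : ℂ → ℝ} (hψ : TF Ω ψ) (x : ℂ) {k : ℕ}
    (t : Fin d → Fin k → ℝ) (y : Fin d → Fin k → ℂ) :
    Tendsto (fun n => ∫ z, (ψ z : ℂ) *
      ((∏ i ∈ S, Fy (1 / √(lam i n)) (u i n) (t i) (fun j => y i j + (c i : ℂ) * x) z) -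
        ∏ i ∈ S, Fy (1 / √(lam i n)) (u i n) (t i) (y i) z)) atTop (𝓝 0) := by
  obtain ⟨C, hC⟩ := hψ.1.continuous.bounded_above_of_compact_support hψ.2.1
  have hC0 : 0 ≤ C := (norm_nonneg _).trans (hC 0)
  obtain ⟨χ, h1, h2, h3, h4⟩ := Pool.Agent.Y265.RW.cutoff (H i₀).op hψ.2.1.isCompact hψ.2.2
  have hχ : TF Ω (fun z => C * χ z) := tf_cmul h1 C
  have hs : TF Ω (fun z => ψ z + C * χ z) := tf_add hψ hχ
  have n1 : ∀ z, 0 ≤ C * χ z := fun z => mul_nonneg hC0 (h2 z)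
  have n2 : ∀ z, 0 ≤ ψ z + C * χ z := by
    intro z
    by_cases hz : z ∈ tsupport ψ
    · rw [h4 z hz, mul_one]
      have := hC z
      rw [Real.norm_eq_abs, abs_le] at this
      linarith [this.1]
    · rw [image_eq_zero_of_notMem_tsupport hz, zero_add]
      exact n1 z
  have l1 := hc d Ω lam u H i₀ S c hS _ hs n2 x k t y
  have l2 := hc d Ω lam u H i₀ S c hS _ hχ n1 x k t y
  have l3 := l1.sub l2
  rw [sub_zero] at l3
  refine l3.congr' ?_
  filter_upwards [eventually_all.2 fun i => eventually_all.2 fun j => small (H i) (y i j),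
    eventually_all.2 fun i => eventually_all.2 fun j => small (H i) (y i j + (c i : ℂ) * x)]
    with n a2 a3
  have hp : ∀ i, (0:ℝ) ≤ 1 / √(lam i n) := fun i => by positivity
  have c1 : ContinuousOn (fun z => ∏ i ∈ S, Fy (1 / √(lam i n)) (u i n) (t i)
      (fun j => y i j + (c i : ℂ) * x) z) HP :=
    continuousOn_finsetProd S fun i _ => Fy_cont ((H i).sm n) (t i) (h := 1 / √(lam i n))
      (y := fun j => y i j + (c i : ℂ) * x) fun j => pos_of_small (hp i) (a3 i j)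
  have c2 : ContinuousOn (fun z => ∏ i ∈ S, Fy (1 / √(lam i n)) (u i n) (t i) (y i) z) HP :=
    continuousOn_finsetProd S fun i _ => Fy_cont ((H i).sm n) (t i) (h := 1 / √(lam i n))
      (y := y i) fun j => pos_of_small (hp i) (a2 i j)
  have c3 := c1.sub c2
  have i1 := int_mul HP_open (⟨hs.1, hs.2.1, hs.2.2.trans (H i₀).sub⟩ : TF HP _) c3
  have i2 := int_mul HP_open (⟨hχ.1, hχ.2.1, hχ.2.2.trans (H i₀).sub⟩ : TF HP _) c3
  have e := integral_sub i1 i2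
  refine e.symm.trans (integral_congr_ae (Eventually.of_forall fun z => ?_))
  simp only [Pi.sub_apply]
  push_cast
  ring

theorem inner (hc : S_CLAIM2) (H : ∀ i, Hyp Ω (lam i) (u i)) (i₀ : Fin d)
    (S : Finset (Fin d)) (c : Fin d → ℝ)
    (hS : ∀ i ∈ S, Tendsto (fun n => √(lam i n / lam i₀ n)) atTop (𝓝 (c i)))
    {ψ : ℂ → ℝ} (hψ : TF Ω ψ) (x : ℂ) {k : ℕ}
    (t : Fin d → Fin k → ℝ) (w : Fin d → Fin k → ℂ) (q : ℝ × Bool) :
    Tendsto (fun n => ∫ z, (ψ z : ℂ) *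
      ((∏ i ∈ S, ex (lam i n) (u i n) (fun j => (t i j : ℂ)) (fun j => w i j + (c i : ℂ) * x) (z, q)) -
        ∏ i ∈ S, ex (lam i n) (u i n) (fun j => (t i j : ℂ)) (w i) (z, q)) ∂(Pz Ω)) atTop
      (𝓝 0) := by
  have hsm2 : ∀ᶠ n in atTop, ∀ i, ∀ j, 1 / √(lam i n) * ‖w i j + (c i : ℂ) * x‖ < 1 :=
    Filter.eventually_all.2 fun i => Filter.eventually_all.2 fun j => small (H i) _
  have hsm3 : ∀ᶠ n in atTop, ∀ i, ∀ j, 1 / √(lam i n) * ‖w i j‖ < 1 :=
    Filter.eventually_all.2 fun i => Filter.eventually_all.2 fun j => small (H i) (w i j)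
  obtain ⟨θ, b⟩ := q
  cases b
  · have h1 := (claim_gen hc H i₀ S c hS (wt_tf (H i₀) hψ) (E θ * starRingEnd ℂ x) t
      (fun i j => E θ * starRingEnd ℂ (w i j))).const_mul (((mass Ω)⁻¹ : ℝ) : ℂ)
    rw [mul_zero] at h1
    refine h1.congr' ?_
    filter_upwards [hsm2, hsm3] with n hn2 hn3
    symm
    rw [convC (H i₀) hψ]
    intro z hz
    rw [Finset.prod_congr rfl fun i _ => ex_false (t i) _ (hn3 i) ((H i₀).sub hz) θ,
      Finset.prod_congr rfl fun i _ => ex_false (t i) _ (hn2 i) ((H i₀).sub hz) θ]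
    have e : ∀ i j, E θ * starRingEnd ℂ (w i j + (c i : ℂ) * x) =
        E θ * starRingEnd ℂ (w i j) + (c i : ℂ) * (E θ * starRingEnd ℂ x) := by
      intro i j
      rw [map_add, map_mul, Complex.conj_ofReal]
      ring
    simp only [e]
  · have h1 := (claim_gen hc H i₀ S c hS (wt_tf (H i₀) hψ) (E θ * x) t
      (fun i j => E θ * w i j)).const_mul (((mass Ω)⁻¹ : ℝ) : ℂ)
    rw [mul_zero] at h1
    refine h1.congr' ?_
    filter_upwards [hsm2, hsm3] with n hn2 hn3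
    symm
    rw [convC (H i₀) hψ]
    intro z hz
    rw [Finset.prod_congr rfl fun i _ => ex_true (t i) _ (hn3 i) ((H i₀).sub hz) θ,
      Finset.prod_congr rfl fun i _ => ex_true (t i) _ (hn2 i) ((H i₀).sub hz) θ]
    have e : ∀ i j, E θ * (w i j + (c i : ℂ) * x) = E θ * w i j + (c i : ℂ) * (E θ * x) := by
      intro i j
      ring
    simp only [e]

theorem outer (hc : S_CLAIM2) (H : ∀ i, Hyp Ω (lam i) (u i)) (i₀ : Fin d)
    (S : Finset (Fin d)) (c : Fin d → ℝ)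
    (hS : ∀ i ∈ S, Tendsto (fun n => √(lam i n / lam i₀ n)) atTop (𝓝 (c i)))
    {ψ : ℂ → ℝ} (hψ : TF Ω ψ) (x : ℂ) {k : ℕ}
    (t : Fin d → Fin k → ℝ) (w : Fin d → Fin k → ℂ) :
    Tendsto (fun n => ∫ p, (ψ p.1 : ℂ) *
      ((∏ i ∈ S, ex (lam i n) (u i n) (fun j => (t i j : ℂ)) (fun j => w i j + (c i : ℂ) * x) p) -
        ∏ i ∈ S, ex (lam i n) (u i n) (fun j => (t i j : ℂ)) (w i) p) ∂(P Ω)) atTop
      (𝓝 0) := by
  have := probz (H i₀)
  have := probP (H i₀)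
  obtain ⟨C, hC⟩ := hψ.1.continuous.bounded_above_of_compact_support hψ.2.1
  have hC0 : 0 ≤ C := (norm_nonneg _).trans (hC 0)
  have hm : ∀ n, Measurable fun p : ℂ × (ℝ × Bool) => (ψ p.1 : ℂ) *
      ((∏ i ∈ S, ex (lam i n) (u i n) (fun j => (t i j : ℂ)) (fun j => w i j + (c i : ℂ) * x) p) -
        ∏ i ∈ S, ex (lam i n) (u i n) (fun j => (t i j : ℂ)) (w i) p) := fun n =>
    (Complex.measurable_ofReal.comp (hψ.1.continuous.measurable.comp measurable_fst)).mul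
      ((Finset.measurable_fun_prod _ fun i _ => ex_meas ((H i).sm n) _ _).sub
        (Finset.measurable_fun_prod _ fun i _ => ex_meas ((H i).sm n) _ _))
  have hb : ∀ n (p : ℂ × (ℝ × Bool)), ‖(ψ p.1 : ℂ) *
      ((∏ i ∈ S, ex (lam i n) (u i n) (fun j => (t i j : ℂ)) (fun j => w i j + (c i : ℂ) * x) p) -
        ∏ i ∈ S, ex (lam i n) (u i n) (fun j => (t i j : ℂ)) (w i) p)‖ ≤ C * 2 := by
    intro n p
    rw [norm_mul]
    refine mul_le_mul ?_ ?_ (norm_nonneg _) hC0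
    · rw [Complex.norm_real]
      exact hC _
    · refine (norm_sub_le _ _).trans ?_
      rw [norm_prod, norm_prod, Finset.prod_eq_one fun i _ => ex_norm _ _ _ _ p,
        Finset.prod_eq_one fun i _ => ex_norm _ _ _ _ p]
      norm_num
  have key := tendsto_integral_filter_of_dominated_convergence (μ := Q) (l := atTop)
    (F := fun n q => ∫ z, (ψ z : ℂ) *
      ((∏ i ∈ S, ex (lam i n) (u i n) (fun j => (t i j : ℂ)) (fun j => w i j + (c i : ℂ) * x) (z, q)) -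
        ∏ i ∈ S, ex (lam i n) (u i n) (fun j => (t i j : ℂ)) (w i) (z, q)) ∂(Pz Ω))
    (f := fun _ => 0)
    (fun _ => C * 2) (Eventually.of_forall fun n =>
      ((hm n).stronglyMeasurable.integral_prod_left' (μ := Pz Ω)).aestronglyMeasurable)
    (Eventually.of_forall fun n => Eventually.of_forall fun q => by
      refine (norm_integral_le_of_norm_le (integrable_const (C * 2))
        (Eventually.of_forall fun z => hb n (z, q))).trans ?_
      simp) (integrable_const (C * 2))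
    (Eventually.of_forall fun q => inner hc H i₀ S c hS hψ x t w q)
  rw [integral_zero] at key
  refine key.congr fun n => ?_
  have hI : Integrable (fun p : ℂ × (ℝ × Bool) => (ψ p.1 : ℂ) *
      ((∏ i ∈ S, ex (lam i n) (u i n) (fun j => (t i j : ℂ)) (fun j => w i j + (c i : ℂ) * x) p) -
        ∏ i ∈ S, ex (lam i n) (u i n) (fun j => (t i j : ℂ)) (w i) p)) (P Ω) :=
    Integrable.of_bound (hm n).aestronglyMeasurable (C * 2) (Eventually.of_forall fun p => hb n p)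
  unfold P at hI ⊢
  exact (integral_prod_symm _ hI).symm

/-! ### common points -/

/-- the union of the supports -/
noncomputable def J (τ : Fin d → ℂ →₀ ℝ) : Finset ℂ := by
  classical
  exact Finset.univ.biUnion fun i => (τ i).support

theorem supp_J (τ : Fin d → ℂ →₀ ℝ) (i : Fin d) : (τ i).support ⊆ J τ := by
  classical
  intro z hz
  unfold J
  exact Finset.mem_biUnion.2 ⟨i, Finset.mem_univ i, hz⟩

/-- the common points -/
noncomputable def yJ (τ : Fin d → ℂ →₀ ℝ) (j : Fin (J τ).card) : ℂ := ((J τ).equivFin.symm j : ℂ)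

theorem sum_J (τ : Fin d → ℂ →₀ ℝ) (i : Fin d) (g : ℂ → ℝ → ℂ) (h0 : ∀ w, g w 0 = 0) :
    (τ i).sum g = ∑ j, g (yJ τ j) (τ i (yJ τ j)) := by
  rw [Finsupp.sum_of_support_subset (τ i) (supp_J τ i) g (fun w _ => h0 w)]
  rw [← Finset.sum_coe_sort (J τ) fun w => g w (τ i w)]
  exact (Equiv.sum_comp (J τ).equivFin.symm fun w : J τ => g (w : ℂ) (τ i (w : ℂ))).symm

theorem eX_J (τ : Fin d → ℂ →₀ ℝ) (i : Fin d) (lam : ℝ) (u : ℂ → ℝ) (p : ℂ × (ℝ × Bool)) :
    eX lam u (τ i) p = ex lam u (fun j => ((τ i (yJ τ j) : ℝ) : ℂ)) (yJ τ) p := by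
  unfold eX ex SX
  rw [sum_J τ i _ (fun _ => by simp)]

theorem eX_Js (τ : Fin d → ℂ →₀ ℝ) (i : Fin d) (lam : ℝ) (u : ℂ → ℝ) (x : ℂ)
    (p : ℂ × (ℝ × Bool)) :
    eX lam u ((τ i).mapDomain (· + x)) p =
      ex lam u (fun j => ((τ i (yJ τ j) : ℝ) : ℂ)) (fun j => yJ τ j + x) p := by
  unfold eX ex SX
  rw [mapDomain_sum (τ i) x _ (fun _ => by simp) (fun _ _ _ => by push_cast; ring),
    sum_J τ i _ (fun _ => by simp)]

theorem eX_zero (lam : ℝ) (u : ℂ → ℝ) (p : ℂ × (ℝ × Bool)) : eX lam u 0 p = 1 := by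
  unfold eX SX
  simp

/-- the product over `S` -/
theorem eXJ_S {S : Finset (Fin d)} {τ : Fin d → ℂ →₀ ℝ} (hS : On S τ) (l : Fin d → ℝ)
    (v : Fin d → ℂ → ℝ) (p : ℂ × (ℝ × Bool)) :
    eXJ l v τ p = ∏ i ∈ S, ex (l i) (v i) (fun j => ((τ i (yJ τ j) : ℝ) : ℂ)) (yJ τ) p := by
  unfold eXJ
  rw [← Finset.prod_subset (Finset.subset_univ S) fun i _ hi => by rw [hS i hi, eX_zero]]
  exact Finset.prod_congr rfl fun i _ => eX_J τ i _ _ p

theorem eXJ_Ss {S : Finset (Fin d)} {τ : Fin d → ℂ →₀ ℝ} (hS : On S τ) (l : Fin d → ℝ)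
    (v : Fin d → ℂ → ℝ) (c : Fin d → ℝ) (x : ℂ) (p : ℂ × (ℝ × Bool)) :
    eXJ l v (sh c x τ) p = ∏ i ∈ S, ex (l i) (v i) (fun j => ((τ i (yJ τ j) : ℝ) : ℂ))
      (fun j => yJ τ j + (c i : ℂ) * x) p := by
  unfold eXJ sh
  rw [← Finset.prod_subset (Finset.subset_univ S) fun i _ hi => by
    rw [hS i hi, Finsupp.mapDomain_zero, eX_zero]]
  exact Finset.prod_congr rfl fun i _ => eX_Js τ i _ _ _ p

theorem eXJ_norm (l : Fin d → ℝ) (v : Fin d → ℂ → ℝ) (τ : Fin d → ℂ →₀ ℝ)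
    (p : ℂ × (ℝ × Bool)) : ‖eXJ l v τ p‖ = 1 := by
  unfold eXJ
  rw [norm_prod]
  exact Finset.prod_eq_one fun i _ => eX_norm _ _ _ p

theorem eXJ_meas (H : ∀ i, Hyp Ω (lam i) (u i)) (n : ℕ) (τ : Fin d → ℂ →₀ ℝ) :
    Measurable (eXJ (fun i => lam i n) (fun i => u i n) τ) := by
  unfold eXJ
  exact Finset.measurable_fun_prod _ fun i _ => eX_meas ((H i).sm n) (τ i)

theorem linv2 (h : S_CLAIM2) : S_LINV2 := by
  intro d Ω lam u H i₀ S c hS ψ hψ τ hτ x
  have hTF : ∀ φ : ℂ → ℝ, TF Ω φ → Tendsto (fun n => ∫ p, (φ p.1 : ℂ) *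
      (eXJ (fun i => lam i n) (fun i => u i n) (sh c x τ) p -
        eXJ (fun i => lam i n) (fun i => u i n) τ p) ∂(P Ω)) atTop (𝓝 0) := by
    intro φ hφ
    have h1 := outer h H i₀ S c hS hφ x (fun i j => τ i (yJ τ j)) (fun _ => yJ τ)
    refine h1.congr fun n => ?_
    refine integral_congr_ae (Eventually.of_forall fun p => ?_)
    simp only
    rw [eXJ_S hτ, eXJ_Ss hτ]
  rcases hψ with hψ | rfl
  · exact hTF ψ hψ
  · have := probP (H i₀)
    obtain ⟨φ, hφ, hφ1⟩ := exists_wt (H i₀)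
    rw [Metric.tendsto_atTop]
    intro ε hε
    obtain ⟨i, hi⟩ := (hφ1.eventually (lt_mem_nhds (show 1 - ε / 4 < 1 by linarith))).exists
    rw [← fstP (H i₀)] at hi
    have h2 := Metric.tendsto_atTop.1 (hTF (φ i) (hφ i).tf) (ε / 2) (by positivity)
    obtain ⟨N, hN⟩ := h2
    refine ⟨N, fun n hn => ?_⟩
    have h3 := hN n hn
    rw [dist_zero_right] at h3 ⊢
    have h4 := split_bd (H i₀) (hφ i) (F := fun p =>
      eXJ (fun i => lam i n) (fun i => u i n) (sh c x τ) p -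
        eXJ (fun i => lam i n) (fun i => u i n) τ p)
      ((eXJ_meas H n _).sub (eXJ_meas H n _)) (fun p => by
        refine (norm_sub_le _ _).trans ?_
        rw [eXJ_norm, eXJ_norm]
        norm_num)
    have h5 : ∫ p, (((fun _ : ℂ => (1 : ℝ)) p.1 : ℝ) : ℂ) *
        (eXJ (fun i => lam i n) (fun i => u i n) (sh c x τ) p -
        eXJ (fun i => lam i n) (fun i => u i n) τ p) ∂(P Ω) = ∫ p,
        (eXJ (fun i => lam i n) (fun i => u i n) (sh c x τ) p -
        eXJ (fun i => lam i n) (fun i => u i n) τ p) ∂(P Ω) := by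
      refine integral_congr_ae (Eventually.of_forall fun p => ?_)
      simp only
      rw [Complex.ofReal_one, one_mul]
    rw [h5]
    linarith

end Pool.Agent.H189.SG
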